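import Pool.Agent.H47.ST.Targets

/-!
Row DN of the board stk_modules (`MP_78620a_co`): the lower bound for `S`.
-/

set_option autoImplicit false

namespace Pool.Agent.H98.STK

open Finset Pool.Agent.H47.ST

theorem pf_DN (h1 : T_WC) (h2 : T_LW) (h3 : T_BLD) : T_DN := by
  intro R L N hR
  obtain ⟨F, hF1, hF2, hF3⟩ := h1 R L hR
  obtain ⟨G, hG, hcard⟩ := h2 R L N F hR hF1 hF2
  have h4 := h3 R (L * (N + R - 1)) G hR hG
  calc (R ^ L) ^ (N * R) * (R - 1).factorial ^ (L * (N + R - 1))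
      ≤ (F.card * (L + 1) ^ R) ^ (N * R) * (R - 1).factorial ^ (L * (N + R - 1)) :=
        Nat.mul_le_mul_right _ (Nat.pow_le_pow_left hF3 _)
    _ = F.card ^ (N * R) * (R - 1).factorial ^ (L * (N + R - 1)) * ((L + 1) ^ R) ^ (N * R) := by
        rw [mul_pow]
        ring
    _ ≤ G.card * (R - 1).factorial ^ (L * (N + R - 1)) * ((L + 1) ^ R) ^ (N * R) :=
        Nat.mul_le_mul_right _ (Nat.mul_le_mul_right _ hcard)
    _ ≤ cnt S (R * (L * (N + R - 1))) R * ((L + 1) ^ R) ^ (N * R) :=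
        Nat.mul_le_mul_right _ h4

end Pool.Agent.H98.STK
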