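import Pool.Agent.H47.ST.Targets

/-!
Row PM of the board stk_modules (`MP_78620a_co`): mirror images of the placements.
-/

set_option autoImplicit false

namespace Pool.Agent.H98.STK

open Finset Pool.Agent.H47.ST

theorem mir_mir (st : List (List ℕ)) : mir (mir st) = st := by
  unfold mir
  rw [List.map_reverse, List.reverse_reverse, List.map_map]
  have : (List.reverse ∘ List.reverse : List ℕ → List ℕ) = id := by
    funext B
    simp
  rw [this, List.map_id]

theorem mir_append (A C : List (List ℕ)) : mir (A ++ C) = mir C ++ mir A := by
  unfold mir
  rw [List.map_append, List.reverse_append]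

theorem mir_cons (B : List ℕ) (C : List (List ℕ)) : mir (B :: C) = mir C ++ [B.reverse] := by
  unfold mir
  rw [List.map_cons, List.reverse_cons]

theorem plc_append (A C : List (List ℕ)) : ∀ Ls : List (List ℕ), plc Ls (A ++ C) =
    ((plc Ls A).map fun q => ((q.1, q.2.1, q.2.2.1, q.2.2.2 ++ C) : Pl)) ++ plc (Ls ++ A) C := by
  induction A with
  | nil =>
    intro Ls
    simp [plc]
  | cons B A ih =>
    intro Ls
    rw [List.cons_append, plc, plc, ih (Ls ++ [B]), List.map_append, List.map_map,
      List.append_assoc, List.append_assoc, List.singleton_append]
    rfl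

theorem plc_shift (P : List (List ℕ)) (A : List (List ℕ)) : ∀ Ls : List (List ℕ),
    plc (P ++ Ls) A = (plc Ls A).map fun q => ((P ++ q.1, q.2) : Pl) := by
  induction A with
  | nil =>
    intro Ls
    simp [plc]
  | cons B A ih =>
    intro Ls
    rw [plc, plc, List.append_assoc, ih (Ls ++ [B]), List.map_append, List.map_map]
    rfl

theorem perm_range (n : ℕ) : ((List.range (n + 1)).map fun p => n - p).Perm (List.range (n + 1)) := by
  rw [List.perm_ext_iff_of_nodup]
  · intro a
    simp only [List.mem_map, List.mem_range]
    constructor
    · rintro ⟨p, hp, rfl⟩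
      omega
    · intro ha
      exact ⟨n - a, by omega, by omega⟩
  · refine List.Nodup.map_on ?_ List.nodup_range
    intro x hx y hy hxy
    rw [List.mem_range] at hx hy
    omega
  · exact List.nodup_range

theorem perm_plc (st : List (List ℕ)) : ((plc [] st).map fun q =>
    ((mir q.2.2.2, q.2.2.1.reverse, q.2.1.reverse, mir q.1) : Pl)).Perm (plc [] (mir st)) := by
  induction st with
  | nil => simp [plc, mir]
  | cons B Rs ih =>
    rw [mir_cons, plc_append, plc, List.nil_append, List.map_append, List.nil_append]
    refine List.perm_append_comm.trans (List.Perm.append ?_ ?_)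
    · have e1 : plc [B] Rs = (plc [] Rs).map fun q => (([B] ++ q.1, q.2) : Pl) := by
        have := plc_shift [B] Rs []
        rwa [List.append_nil] at this
      rw [e1, List.map_map]
      have e2 : ((plc [] Rs).map ((fun q => ((mir q.2.2.2, q.2.2.1.reverse, q.2.1.reverse,
          mir q.1) : Pl)) ∘ fun q => (([B] ++ q.1, q.2) : Pl))) =
          (((plc [] Rs).map fun q => ((mir q.2.2.2, q.2.2.1.reverse, q.2.1.reverse,
            mir q.1) : Pl)).map fun q => ((q.1, q.2.1, q.2.2.1, q.2.2.2 ++ [B.reverse]) : Pl)) := by
        rw [List.map_map]
        refine List.map_congr_left fun q _ => ?_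
        simp only [Function.comp_apply]
        rw [List.singleton_append, mir_cons]
      rw [e2]
      exact ih.map _
    · rw [plc, plc, List.append_nil, List.map_map, List.length_reverse]
      have e3 : ((List.range (B.length + 1)).map ((fun q => ((mir q.2.2.2, q.2.2.1.reverse,
          q.2.1.reverse, mir q.1) : Pl)) ∘ fun p => (([], B.take p, B.drop p, Rs) : Pl))) =
          (((List.range (B.length + 1)).map fun p => B.length - p).map fun p =>
            ((mir Rs, B.reverse.take p, B.reverse.drop p, []) : Pl)) := by
        rw [List.map_map]
        refine List.map_congr_left fun p hp => ?_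
        rw [List.mem_range] at hp
        have h1 : B.reverse.take (B.length - p) = (B.drop p).reverse := by
          rw [List.take_reverse]
          congr 2
          omega
        have h2 : B.reverse.drop (B.length - p) = (B.take p).reverse := by
          rw [List.drop_reverse]
          congr 2
          omega
        simp only [Function.comp_apply]
        rw [h1, h2]
        rfl
      rw [e3]
      exact (perm_range B.length).map _

theorem pf_PM (h1 : T_TOP) (h2 : T_MIR) : T_PM := by
  obtain ⟨-, -, ht, -⟩ := h1
  refine ⟨?_, ?_, perm_plc⟩
  · intro e Ls X Y Rs he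
    have hee : 1 - (1 - e) = e := by omega
    unfold place
    rw [mir_append, mir_cons, List.append_assoc, List.singleton_append]
    unfold upL
    rw [mir_mir, mir_mir, ht, ht, hee]
    congr 2
    unfold ins
    rw [List.reverse_append, List.reverse_cons, List.append_assoc, List.singleton_append, hee,
      List.reverse_reverse, List.reverse_reverse]
  · intro R W U D e st he
    have hA : PA R W U (1 - e) (mir st) = PA R W U e st := by
      unfold PA mir
      rw [List.map_reverse, List.prod_reverse, List.map_map]
      congr 1
      refine List.map_congr_left fun B _ => ?_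
      exact h2 R W U e 0 0 B he
    have hT : Pool.Agent.H47.ST.tsum (mir st) = Pool.Agent.H47.ST.tsum st := by
      unfold Pool.Agent.H47.ST.tsum mir
      rw [List.map_reverse, List.sum_reverse, List.map_map]
      congr 1
      refine List.map_congr_left fun B _ => ?_
      exact ht B
    unfold PHI
    rw [hA, hT]

end Pool.Agent.H98.STK
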